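import Mathlib
import Pool.Agent.Q164.DF.L1M

/-!
The set of closed ideals `K` of `A = ℓ¹(S)` with `A/K` Dedekind finite is closed (and not open)
in the Wijsman topology; so the upper bound `Π⁰₂` is not sharp.
-/

set_option autoImplicit false

open Topology Filter Q164.DF

universe u

namespace Pool.Agent.Results.MP_332c3b_lc.DedekindFiniteClosed

/-- A closed two-sided ideal of the normed ring `A`. -/
structure CIdeal (A : Type u) [NormedRing A] where
  /-- the ideal -/
  ideal : TwoSidedIdeal A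
  /-- it is closed -/
  closed : IsClosed (ideal : Set A)

/-- The Wijsman topology on the set of closed two-sided ideals of `A`: the weakest topology making
`K ↦ d(x, K)` continuous for every `x ∈ A`. -/
noncomputable instance wijsman (A : Type u) [NormedRing A] : TopologicalSpace (CIdeal A) :=
  ⨅ x : A, TopologicalSpace.induced (fun K => Metric.infDist x (K.ideal : Set A)) inferInstance

/-- The space of proper closed two-sided ideals, a subspace of `CIdeal A`. -/
abbrev PIdeal (A : Type u) [NormedRing A] : Type u := {K : CIdeal A // K.ideal ≠ ⊤}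

/-- The quotient ring `A / K`. -/
abbrev Quo {A : Type u} [NormedRing A] (K : PIdeal A) : Type u := K.1.ideal.ringCon.Quotient

/-- The set of proper closed ideals `K` such that `A / K` is Dedekind finite: `ab = 1` implies
`ba = 1` in `A / K`. -/
def DF (A : Type u) [NormedRing A] : Set (PIdeal A) :=
  {K | ∀ a b : Quo K, a * b = 1 → b * a = 1}

/-- The Borel class `Σ⁰₂`: countable unions of closed sets. -/
def IsSigma02 {X : Type u} [TopologicalSpace X] (s : Set X) : Prop :=
  ∃ F : ℕ → Set X, (∀ n, IsClosed (F n)) ∧ s = ⋃ n, F n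

/-- The Banach algebra `ℓ¹(S)`, where `S` is the free monoid on countably many generators. -/
abbrev ell : Type := EllM (FreeMonoid ℕ)

section General

variable {A : Type u} [NormedRing A]

lemma mem_DF (K : PIdeal A) :
    K ∈ DF A ↔ ∀ a b : A, a * b - 1 ∈ K.1.ideal → b * a - 1 ∈ K.1.ideal := by
  have key : ∀ x y : A, ((x : Quo K) = (y : Quo K)) ↔ x - y ∈ K.1.ideal := by
    intro x y
    rw [RingCon.eq, TwoSidedIdeal.rel_iff]
  constructor
  · intro h a b hab
    have h1 := h (a : Quo K) (b : Quo K) (by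
      have := (key (a * b) 1).2 hab
      simpa using this)
    have h2 : ((b * a : A) : Quo K) = ((1 : A) : Quo K) := by simpa using h1
    exact (key _ _).1 h2
  · intro h a b hab
    obtain ⟨a, rfl⟩ := RingCon.mk'_surjective K.1.ideal.ringCon a
    obtain ⟨b, rfl⟩ := RingCon.mk'_surjective K.1.ideal.ringCon b
    have h1 : ((a * b : A) : Quo K) = ((1 : A) : Quo K) := by
      rw [← map_mul, ← map_one (RingCon.mk' K.1.ideal.ringCon)] at hab
      exact hab
    have h2 := (key _ _).2 (h a b ((key _ _).1 h1))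
    rw [← map_mul, ← map_one (RingCon.mk' K.1.ideal.ringCon)]
    exact h2

lemma continuous_infDist (x : A) :
    Continuous (fun K : PIdeal A => Metric.infDist x (K.1.ideal : Set A)) := by
  have h : Continuous (fun K : CIdeal A => Metric.infDist x (K.ideal : Set A)) := by
    refine continuous_iInf_dom (i := x) ?_
    exact continuous_induced_dom
  exact h.comp continuous_subtype_val

lemma infDist_mul_le (K : TwoSidedIdeal A) (x : A) :
    Metric.infDist (x * x) (K : Set A) ≤ Metric.infDist x (K : Set A) ^ 2 := by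
  have hne : (K : Set A).Nonempty := ⟨0, K.zero_mem⟩
  refine le_of_forall_pos_le_add fun ε hε => ?_
  -- choose `δ` with `(d + δ)² ≤ d² + ε`
  set d := Metric.infDist x (K : Set A) with hd
  have hd0 : 0 ≤ d := Metric.infDist_nonneg
  obtain ⟨δ, hδ, hδ2⟩ : ∃ δ : ℝ, 0 < δ ∧ (d + δ) ^ 2 ≤ d ^ 2 + ε := by
    refine ⟨min 1 (ε / (2 * d + 1)), by positivity, ?_⟩
    have h1 : min 1 (ε / (2 * d + 1)) ≤ 1 := min_le_left _ _
    have h2 : min 1 (ε / (2 * d + 1)) ≤ ε / (2 * d + 1) := min_le_right _ _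
    have h3 : 0 < min 1 (ε / (2 * d + 1)) := by positivity
    have h4 : min 1 (ε / (2 * d + 1)) * (2 * d + 1) ≤ ε := by
      rwa [← le_div_iff₀ (by positivity)]
    nlinarith
  obtain ⟨k, hk, hxk⟩ := (Metric.infDist_lt_iff hne).1 (show d < d + δ by linarith)
  rw [dist_eq_norm] at hxk
  have hmem : x * k + k * x - k * k ∈ K := by
    refine K.sub_mem (K.add_mem (K.mul_mem_left _ _ hk) (K.mul_mem_right _ _ hk))
      (K.mul_mem_left _ _ hk)
  calc Metric.infDist (x * x) (K : Set A) ≤ dist (x * x) (x * k + k * x - k * k) :=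
        Metric.infDist_le_dist_of_mem hmem
    _ = ‖(x - k) * (x - k)‖ := by rw [dist_eq_norm]; congr 1; noncomm_ring
    _ ≤ ‖x - k‖ * ‖x - k‖ := norm_mul_le _ _
    _ ≤ (d + δ) * (d + δ) := by gcongr
    _ ≤ d ^ 2 + ε := by nlinarith

lemma infDist_congr (K : TwoSidedIdeal A) {x y : A} (h : x - y ∈ K) :
    Metric.infDist x (K : Set A) = Metric.infDist y (K : Set A) := by
  have aux : ∀ x y : A, x - y ∈ K → Metric.infDist x (K : Set A) ≤ Metric.infDist y (K : Set A) := by
    intro x y h
    have hne : (K : Set A).Nonempty := ⟨0, K.zero_mem⟩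
    refine le_of_forall_pos_le_add fun ε hε => ?_
    obtain ⟨k, hk, hyk⟩ := (Metric.infDist_lt_iff hne).1
      (show Metric.infDist y (K : Set A) < Metric.infDist y (K : Set A) + ε by linarith)
    calc Metric.infDist x (K : Set A) ≤ dist x (k + (x - y)) :=
          Metric.infDist_le_dist_of_mem (K.add_mem hk h)
      _ = dist y k := by rw [dist_eq_norm, dist_eq_norm]; congr 1; abel
      _ ≤ _ := hyk.le
  refine le_antisymm (aux x y h) (aux y x ?_)
  have := K.neg_mem h
  rwa [neg_sub] at this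

/-- A nonzero idempotent of `A / K` has quotient norm at least `1`. -/
lemma one_le_infDist (K : CIdeal A) {p : A} (hp : p * p - p ∈ K.ideal) (h0 : p ∉ K.ideal) :
    1 ≤ Metric.infDist p (K.ideal : Set A) := by
  have hne : (K.ideal : Set A).Nonempty := ⟨0, K.ideal.zero_mem⟩
  have hpos : 0 < Metric.infDist p (K.ideal : Set A) := by
    refine lt_of_le_of_ne Metric.infDist_nonneg fun h => h0 ?_
    exact (K.closed.mem_iff_infDist_zero hne).2 h.symm
  have h1 := infDist_mul_le K.ideal p
  rw [infDist_congr K.ideal hp] at h1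
  nlinarith

/-- Dedekind finiteness is a closed condition. -/
theorem isClosed_DF [CompleteSpace A] : IsClosed (DF A) := by
  rw [← isOpen_compl_iff, isOpen_iff_mem_nhds]
  intro K hK
  rw [Set.mem_compl_iff, mem_DF] at hK
  push Not at hK
  obtain ⟨a, b, hab, hba⟩ := hK
  -- `p = 1 - b a` is a nonzero idempotent of `A / K`
  have hp : (1 - b * a) * (1 - b * a) - (1 - b * a) ∈ K.1.ideal := by
    have h1 : (1 - b * a) * (1 - b * a) - (1 - b * a) = b * (a * b - 1) * a := by noncomm_ring
    rw [h1]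
    exact K.1.ideal.mul_mem_right _ _ (K.1.ideal.mul_mem_left _ _ hab)
  have hp0 : 1 - b * a ∉ K.1.ideal := by
    intro h
    have := K.1.ideal.neg_mem h
    rw [neg_sub] at this
    exact hba this
  have h1 := one_le_infDist K.1 hp hp0
  have h0 : Metric.infDist (a * b - 1) (K.1.ideal : Set A) = 0 :=
    Metric.infDist_zero_of_mem hab
  -- the inverse is continuous at `1`
  have hinv : Tendsto (fun u : A => ‖b * (1 - Ring.inverse u) * a‖) (𝓝 1) (𝓝 0) := by
    have hc : Tendsto (Ring.inverse : A → A) (𝓝 1) (𝓝 1) := by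
      have := NormedRing.inverse_continuousAt (1 : Aˣ)
      simpa [ContinuousAt] using this
    have h2 : Tendsto (fun u : A => b * (1 - Ring.inverse u) * a) (𝓝 1)
        (𝓝 (b * (1 - 1) * a)) :=
      ((tendsto_const_nhds.mul (tendsto_const_nhds.sub hc)).mul tendsto_const_nhds)
    simpa using h2.norm
  have hunit : ∀ᶠ u : A in 𝓝 1, IsUnit u := by
    have := (Units.isOpen (R := A)).mem_nhds (show (1 : A) ∈ {x : A | IsUnit x} from isUnit_one)
    exact this
  obtain ⟨ε, hε, hball⟩ := Metric.eventually_nhds_iff.1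
    ((hinv.eventually_lt_const (show (0 : ℝ) < 1 / 2 by norm_num)).and hunit)
  have hU1 : {L : PIdeal A | Metric.infDist (a * b - 1) (L.1.ideal : Set A) < ε} ∈ 𝓝 K :=
    (isOpen_Iio.preimage (continuous_infDist (a * b - 1))).mem_nhds (by
      simp only [Set.mem_preimage, Set.mem_Iio, h0]; exact hε)
  have hU2 : {L : PIdeal A | 1 / 2 < Metric.infDist (1 - b * a) (L.1.ideal : Set A)} ∈ 𝓝 K :=
    (isOpen_Ioi.preimage (continuous_infDist (1 - b * a))).mem_nhds (by
      simp only [Set.mem_preimage, Set.mem_Ioi]; linarith)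
  filter_upwards [hU1, hU2] with L hL1 hL2 hL
  rw [mem_DF] at hL
  have hne : (L.1.ideal : Set A).Nonempty := ⟨0, L.1.ideal.zero_mem⟩
  obtain ⟨k, hk, hdk⟩ := (Metric.infDist_lt_iff hne).1 hL1
  -- the invertible element `u = a b - k`
  have hu := hball (y := a * b - k) (by
    rw [dist_eq_norm] at hdk ⊢
    rwa [show a * b - k - 1 = a * b - 1 - k by abel])
  obtain ⟨hlt, u, hu⟩ := hu
  rw [← hu, Ring.inverse_unit] at hlt
  have h3 : a * (b * (↑u⁻¹ : A)) - 1 ∈ L.1.ideal := by
    have : a * (b * (↑u⁻¹ : A)) - 1 = k * (↑u⁻¹ : A) := by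
      have h4 : a * b = (u : A) + k := by rw [hu]; abel
      rw [← mul_assoc, h4, add_mul, Units.mul_inv]
      abel
    rw [this]
    exact L.1.ideal.mul_mem_right _ _ hk
  have h4 := hL _ _ h3
  -- so `1 - b a` is close to `L`
  have h5 : (1 - b * a) - (b * ((↑u⁻¹ : A) - 1) * a) ∈ L.1.ideal := by
    have : (1 - b * a) - (b * ((↑u⁻¹ : A) - 1) * a) = -(b * (↑u⁻¹ : A) * a - 1) := by
      noncomm_ring
    rw [this]
    exact L.1.ideal.neg_mem h4
  have h6 := infDist_congr L.1.ideal h5
  have h7 : Metric.infDist (b * ((↑u⁻¹ : A) - 1) * a) (L.1.ideal : Set A)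
      ≤ ‖b * ((↑u⁻¹ : A) - 1) * a‖ := by
    have := Metric.infDist_le_dist_of_mem (x := b * ((↑u⁻¹ : A) - 1) * a)
      (show (0 : A) ∈ (L.1.ideal : Set A) from L.1.ideal.zero_mem)
    rwa [dist_zero_right] at this
  have h8 : ‖b * ((↑u⁻¹ : A) - 1) * a‖ = ‖b * (1 - (↑u⁻¹ : A)) * a‖ := by
    rw [← norm_neg]
    congr 1
    noncomm_ring
  have h9 : (1 : ℝ) / 2 < Metric.infDist (1 - b * a) (L.1.ideal : Set A) := hL2
  linarith

end General

section Example

/-- The predecessor function as an element of the monoid of self-maps of `ℕ`. -/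
def pr : Function.End ℕ := Nat.pred

/-- The successor function as an element of the monoid of self-maps of `ℕ`. -/
def sc : Function.End ℕ := Nat.succ

lemma pr_mul_sc : pr * sc = 1 := by
  funext i
  rfl

lemma sc_mul_pr : sc * pr ≠ 1 := by
  intro h
  have := congrFun h 0
  exact absurd this (by decide)

/-- The homomorphism `S → End ℕ` mapping the `n`-th generator to the predecessor function, the
next one to the successor function and all others to the identity. -/
def th (n : ℕ) : FreeMonoid ℕ →* Function.End ℕ :=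
  FreeMonoid.lift (fun i => if i = n then pr else if i = n + 1 then sc else 1)

/-- The induced homomorphism `ℓ¹(S) → ℓ¹(End ℕ)`. -/
noncomputable def ph (n : ℕ) : ell →+* EllM (Function.End ℕ) :=
  EllM.liftR (fun w => EllM.delta (th n w)) (fun w => (EllM.norm_delta _).le)
    (by rw [map_one]; rfl) (fun x y => by rw [map_mul, EllM.delta_mul_delta])

lemma ph_delta (n : ℕ) (w : FreeMonoid ℕ) : ph n (EllM.delta w) = EllM.delta (th n w) :=
  EllM.liftL_delta _ _ w

lemma ph_cont (n : ℕ) : Continuous (ph n) :=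
  (EllM.liftL (fun w => EllM.delta (th n w)) (fun w => (EllM.norm_delta _).le)).continuous

/-- The augmentation of `ℓ¹(M)`. -/
noncomputable def au (M : Type) [Monoid M] : EllM M →+* ℂ :=
  EllM.liftR (fun _ => (1 : ℂ)) (fun _ => norm_one.le) rfl (fun _ _ => (mul_one _).symm)

lemma au_delta {M : Type} [Monoid M] (w : M) : au M (EllM.delta w) = 1 :=
  EllM.liftL_delta _ _ w

lemma au_smul {M : Type} [Monoid M] (c : ℂ) (x : EllM M) : au M (c • x) = c * au M x :=
  (EllM.liftL (fun _ : M => (1 : ℂ)) (fun _ => norm_one.le)).map_smul c x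

lemma ph_smul (n : ℕ) (c : ℂ) (x : ell) : ph n (c • x) = c • ph n x :=
  (EllM.liftL (fun w => EllM.delta (th n w)) (fun w => (EllM.norm_delta _).le)).map_smul c x

lemma norm_au {M : Type} [Monoid M] (x : EllM M) : ‖au M x‖ ≤ ‖x‖ :=
  EllM.norm_liftL _ _ x

lemma au_cont (M : Type) [Monoid M] : Continuous (au M) :=
  (EllM.liftL (fun _ : M => (1 : ℂ)) (fun _ => norm_one.le)).continuous

lemma au_ph (n : ℕ) (x : ell) : au _ (ph n x) = au _ x := by
  have h1 : HasSum (fun w => EllM.coeff x w • (EllM.delta w : ell)) x := EllM.hasSum_delta x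
  have h2 := h1.map (au _) (au_cont _)
  have h3 := (h1.map (ph n) (ph_cont n)).map (au _) (au_cont _)
  refine h3.unique ?_
  convert h2 using 1
  funext w
  simp only [Function.comp_apply]
  rw [ph_smul, ph_delta, au_smul, au_smul, au_delta, au_delta]

/-- The kernel of `ℓ¹(S) → ℓ¹(End ℕ)`, a closed ideal. -/
noncomputable def Kn (n : ℕ) : CIdeal ell where
  ideal := TwoSidedIdeal.ker (ph n)
  closed := by
    have : ((TwoSidedIdeal.ker (ph n) : TwoSidedIdeal ell) : Set ell) = (ph n) ⁻¹' {0} := by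
      ext x
      simp [TwoSidedIdeal.mem_ker]
    rw [this]
    exact isClosed_singleton.preimage (ph_cont n)

/-- The augmentation ideal of `ℓ¹(S)`. -/
noncomputable def Ki : CIdeal ell where
  ideal := TwoSidedIdeal.ker (au (FreeMonoid ℕ))
  closed := by
    have : ((TwoSidedIdeal.ker (au (FreeMonoid ℕ)) : TwoSidedIdeal ell) : Set ell)
        = (au (FreeMonoid ℕ)) ⁻¹' {0} := by
      ext x
      simp [TwoSidedIdeal.mem_ker]
    rw [this]
    exact isClosed_singleton.preimage (au_cont _)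

lemma mem_Kn (n : ℕ) (x : ell) : x ∈ (Kn n).ideal ↔ ph n x = 0 := TwoSidedIdeal.mem_ker _

lemma mem_Ki (x : ell) : x ∈ Ki.ideal ↔ au (FreeMonoid ℕ) x = 0 := TwoSidedIdeal.mem_ker _

lemma Kn_le (n : ℕ) {x : ell} (h : x ∈ (Kn n).ideal) : x ∈ Ki.ideal := by
  rw [mem_Kn] at h
  rw [mem_Ki, ← au_ph n, h, map_zero]

lemma Ki_ne : Ki.ideal ≠ ⊤ := by
  intro h
  have : (1 : ell) ∈ Ki.ideal := by rw [h]; trivial
  rw [mem_Ki, map_one] at this
  exact one_ne_zero this

lemma Kn_ne (n : ℕ) : (Kn n).ideal ≠ ⊤ := by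
  intro h
  have : (1 : ell) ∈ (Kn n).ideal := by rw [h]; trivial
  have h2 := Kn_le n this
  rw [mem_Ki, map_one] at h2
  exact one_ne_zero h2

/-- The ideals `Kn n` as proper ideals. -/
noncomputable def Pn (n : ℕ) : PIdeal ell := ⟨Kn n, Kn_ne n⟩

/-- The augmentation ideal as a proper ideal. -/
noncomputable def Pi : PIdeal ell := ⟨Ki, Ki_ne⟩

lemma Pi_mem : Pi ∈ DF ell := by
  rw [mem_DF]
  intro a b h
  have h1 : a * b - 1 ∈ Ki.ideal := h
  have h2 : b * a - 1 ∈ Ki.ideal := by
    rw [mem_Ki, map_sub, map_mul] at h1 ⊢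
    rw [mul_comm]
    exact h1
  exact h2

lemma Pn_not_mem (n : ℕ) : Pn n ∉ DF ell := by
  rw [mem_DF]
  intro h
  have hn : th n (FreeMonoid.of n) = pr := by
    simp [th]
  have hn1 : th n (FreeMonoid.of (n + 1)) = sc := by
    simp [th]
  have h1 : (EllM.delta (FreeMonoid.of n) * EllM.delta (FreeMonoid.of (n + 1)) : ell) - 1
      ∈ (Kn n).ideal := by
    rw [mem_Kn, map_sub, map_mul, ph_delta, ph_delta, map_one, hn, hn1, EllM.delta_mul_delta,
      pr_mul_sc, EllM.one_def, sub_self]
  have h2 : (EllM.delta (FreeMonoid.of (n + 1)) * EllM.delta (FreeMonoid.of n) : ell) - 1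
      ∈ (Kn n).ideal := h _ _ h1
  rw [mem_Kn, map_sub, map_mul, ph_delta, ph_delta, map_one, hn, hn1, EllM.delta_mul_delta,
    EllM.one_def, sub_eq_zero] at h2
  have h3 : EllM.coeff (EllM.delta (sc * pr)) (1 : Function.End ℕ)
      = EllM.coeff (EllM.delta (1 : Function.End ℕ)) 1 := by rw [h2]
  have h4 := L1.delta_apply (sc * pr) (1 : Function.End ℕ)
  have h5 := L1.delta_apply (1 : Function.End ℕ) (1 : Function.End ℕ)
  rw [if_neg (fun h => sc_mul_pr h.symm)] at h4
  rw [if_pos rfl] at h5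
  exact zero_ne_one (h4.symm.trans (h3.trans h5))

/-- The generators used by `w` are smaller than some `N`. -/
lemma th_eventually (w : FreeMonoid ℕ) : ∀ᶠ n in atTop, th n w = 1 := by
  induction w using FreeMonoid.recOn with
  | one => exact Eventually.of_forall fun n => map_one _
  | of_mul i w hw =>
    filter_upwards [hw, eventually_gt_atTop i] with n h1 h2
    rw [map_mul, h1, mul_one]
    simp only [th, FreeMonoid.lift_eval_of]
    rw [if_neg (by omega), if_neg (by omega)]

lemma sub_mem_eventually (x : ell) (F : Finset (FreeMonoid ℕ)) :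
    ∀ᶠ n in atTop, (∑ w ∈ F, EllM.coeff x w • (EllM.delta w : ell))
      - (∑ w ∈ F, EllM.coeff x w) • (1 : ell) ∈ (Kn n).ideal := by
  have h : ∀ᶠ n in atTop, ∀ w ∈ F, th n w = 1 := by
    rw [Filter.eventually_all_finset]
    exact fun w _ => th_eventually w
  filter_upwards [h] with n hn
  rw [mem_Kn, map_sub, ph_smul, map_one, map_sum, Finset.sum_smul, ← Finset.sum_sub_distrib]
  refine Finset.sum_eq_zero fun w hw => ?_
  rw [ph_smul, ph_delta, hn w hw, EllM.one_def, sub_self]

lemma infDist_Ki (x : ell) : ‖au (FreeMonoid ℕ) x‖ ≤ Metric.infDist x (Ki.ideal : Set ell) := by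
  have hne : (Ki.ideal : Set ell).Nonempty := ⟨0, Ki.ideal.zero_mem⟩
  rw [Metric.le_infDist hne]
  intro k hk
  have hk2 : au (FreeMonoid ℕ) k = 0 := (mem_Ki k).1 hk
  calc ‖au (FreeMonoid ℕ) x‖ = ‖au (FreeMonoid ℕ) (x - k)‖ := by rw [map_sub, hk2, sub_zero]
    _ ≤ ‖x - k‖ := norm_au _
    _ = dist x k := (dist_eq_norm _ _).symm

lemma infDist_Kn (x : ell) (ε : ℝ) (hε : 0 < ε) :
    ∀ᶠ n in atTop, Metric.infDist x ((Kn n).ideal : Set ell) ≤ ‖au (FreeMonoid ℕ) x‖ + ε := by
  have h1 : HasSum (fun w => EllM.coeff x w • (EllM.delta w : ell)) x := EllM.hasSum_delta x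
  have h2 := Metric.tendsto_nhds.1 h1 (ε / 2) (half_pos hε)
  obtain ⟨F, hF⟩ := h2.exists
  rw [dist_eq_norm] at hF
  set y := ∑ w ∈ F, EllM.coeff x w • (EllM.delta w : ell) with hy
  have hau : au (FreeMonoid ℕ) y = ∑ w ∈ F, EllM.coeff x w := by
    rw [hy, map_sum]
    refine Finset.sum_congr rfl fun w _ => ?_
    rw [au_smul, au_delta, mul_one]
  filter_upwards [sub_mem_eventually x F] with n hn
  rw [← hy, ← hau] at hn
  have h3 := Metric.infDist_le_dist_of_mem (x := x)
    (show y - au (FreeMonoid ℕ) y • (1 : ell) ∈ ((Kn n).ideal : Set ell) from hn)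
  refine h3.trans ?_
  have h4 : ‖au (FreeMonoid ℕ) y - au (FreeMonoid ℕ) x‖ ≤ ‖y - x‖ := by
    rw [← map_sub]
    exact norm_au _
  have h5 : ‖au (FreeMonoid ℕ) y‖ ≤ ‖au (FreeMonoid ℕ) x‖ + ‖y - x‖ := by
    calc ‖au (FreeMonoid ℕ) y‖ = ‖au (FreeMonoid ℕ) x
          + (au (FreeMonoid ℕ) y - au (FreeMonoid ℕ) x)‖ := by congr 1; ring
      _ ≤ _ := (norm_add_le _ _).trans (by gcongr)
  have h6 : ‖(1 : ell)‖ = 1 := EllM.norm_delta 1
  calc dist x (y - au (FreeMonoid ℕ) y • (1 : ell))
      = ‖(x - y) + au (FreeMonoid ℕ) y • (1 : ell)‖ := by rw [dist_eq_norm]; congr 1; abel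
    _ ≤ ‖x - y‖ + ‖au (FreeMonoid ℕ) y • (1 : ell)‖ := norm_add_le _ _
    _ ≤ ‖x - y‖ + ‖au (FreeMonoid ℕ) y‖ * ‖(1 : ell)‖ := by gcongr; exact norm_smul_le _ _
    _ ≤ ‖au (FreeMonoid ℕ) x‖ + ε := by
        rw [h6, mul_one, norm_sub_rev x y]
        linarith

lemma tendsto_Pn : Tendsto Pn atTop (𝓝 Pi) := by
  rw [tendsto_subtype_rng]
  have h : (𝓝 (Pi : CIdeal ell)) = ⨅ x : ell, comap
      (fun K : CIdeal ell => Metric.infDist x (K.ideal : Set ell))
      (𝓝 (Metric.infDist x (Ki.ideal : Set ell))) := by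
    rw [nhds_iInf]
    refine iInf_congr fun x => ?_
    rw [nhds_induced]
    rfl
  rw [h, tendsto_iInf]
  intro x
  rw [tendsto_comap_iff]
  have hKi : Metric.infDist x (Ki.ideal : Set ell) = ‖au (FreeMonoid ℕ) x‖ := by
    refine le_antisymm ?_ (infDist_Ki x)
    refine le_of_forall_pos_le_add fun ε hε => ?_
    obtain ⟨n, hn⟩ := (infDist_Kn x ε hε).exists
    refine le_trans (Metric.infDist_le_infDist_of_subset (fun y hy => Kn_le n hy)
      ⟨0, (Kn n).ideal.zero_mem⟩) hn
  rw [hKi, Metric.tendsto_nhds]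
  intro ε hε
  filter_upwards [infDist_Kn x (ε / 2) (half_pos hε)] with n hn
  have h1 : Metric.infDist x (Ki.ideal : Set ell) ≤ Metric.infDist x ((Kn n).ideal : Set ell) :=
    Metric.infDist_le_infDist_of_subset (fun y hy => Kn_le n hy) ⟨0, (Kn n).ideal.zero_mem⟩
  rw [hKi] at h1
  have h2 : ((fun K : CIdeal ell => Metric.infDist x (K.ideal : Set ell)) ∘
      fun n => ((Pn n : PIdeal ell) : CIdeal ell)) n
      = Metric.infDist x ((Kn n).ideal : Set ell) := rfl
  rw [h2, Real.dist_eq, abs_lt]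
  constructor <;> linarith

end Example

/-- Let `A` be a unital Banach algebra. The set `DF A` of proper closed two-sided ideals `K` with
`A / K` Dedekind finite is closed in the space of proper closed two-sided ideals (Wijsman
topology). For `A = ℓ¹(S)`, `S` the free monoid on countably many generators, `DF A` is closed,
hence `Σ⁰₂`, and it is not open: its exact Borel class is `Π⁰₁`, so the bound `Π⁰₂` is not
sharp. -/
theorem result :
    (∀ (A : Type u) [NormedRing A] [NormedAlgebra ℂ A] [CompleteSpace A], IsClosed (DF A)) ∧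
    IsClosed (DF ell) ∧ IsSigma02 (DF ell) ∧ ¬ IsOpen (DF ell) := by
  refine ⟨fun A _ _ _ => isClosed_DF, isClosed_DF, ⟨fun _ => DF ell, fun _ => isClosed_DF, ?_⟩, ?_⟩
  · exact (Set.iUnion_const _).symm
  · intro h
    have h1 := tendsto_Pn.eventually (h.mem_nhds Pi_mem)
    obtain ⟨n, hn⟩ := h1.exists
    exact Pn_not_mem n hn

end Pool.Agent.Results.MP_332c3b_lc.DedekindFiniteClosed
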